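import Pool.Agent.Run7.h442.T3.Spr2
import Pool.Agent.Run7.h442.T3.Trf

set_option autoImplicit false

/-!
# The uniform Anderson model in dimension two: localization length beyond the mean free path

`Δ_ω = -Δ + ω` on the discrete torus `(ℤ/L)²`, `ω_j` i.i.d. uniform on `[-c, c]`, `c` small, of any
side `L ≥ c⁻¹³`. For `b < 31/15` and every `ε > 0`, with probability at least `1 - ε` all but `ε L²` of
the eigenvectors (of all energies) have in every strip of width `2 c^(-b)`, hence in every square of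
this side, less than the fraction `ε` of their mass. The mean free path is of order `c⁻²`. The same for
`ω = λ v`, `v` i.i.d. with any other law of bounded support which is not a point mass.
-/

namespace Pool.Agent.Results.MP_562b47_mp.LocalizationLength2D

open MeasureTheory ProbabilityTheory

noncomputable section

/-- the discrete torus `(ℤ/L)²` -/
abbrev Torus (L : ℕ) : Type := Fin 2 → ZMod L

/-- `u` solves `Δ_ω u = E u` on the torus,
`(Δ_ω u)(x) = -∑_{|n| = 1} (u(x + n) - u(x)) + ω_x u(x)`. -/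
def IsEigenvector {L : ℕ} (ω : Torus L → ℝ) (E : ℝ) (u : Torus L → ℂ) : Prop :=
  ∀ x, -(∑ i : Fin 2, ((u (x + Pi.single i 1) - u x) + (u (x - Pi.single i 1) - u x))) +
    ((ω x : ℝ) : ℂ) * u x = E * u x

/-- the strip `{x : |x_i - z| ≤ r}` of the torus -/
def strip {L : ℕ} (r : ℝ) (i : Fin 2) (z : ZMod L) : Set (Torus L) :=
  {x | ∃ m : ℤ, |(m : ℝ)| ≤ r ∧ x i = z + (m : ZMod L)}

open Classical in
/-- the mass `∑_{x ∈ A} |u x|²` of `u` in the set `A` -/
def mass {L : ℕ} [NeZero L] (u : Torus L → ℂ) (A : Set (Torus L)) : ℝ :=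
  ∑ x, if x ∈ A then ‖u x‖ ^ 2 else 0

/-- The potential `ω` on the torus of side `L` being i.i.d. with law `μ`: there is a set `S` of
potentials with probability at least `1 - ε` such that for `ω ∈ S` the following holds: a family of
orthonormal eigenvectors of `Δ_ω`, each of which has at least the fraction `ε` of its mass in some
strip of width `2 r`, has at most `ε L²` members. -/
def Spread (μ : Measure ℝ) (L : ℕ) [NeZero L] (r ε : ℝ) : Prop :=
  ∃ S : Set (Torus L → ℝ), MeasurableSet S ∧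
    1 - ε ≤ (Measure.pi fun _ : Torus L => μ).real S ∧
    ∀ ω ∈ S, ∀ (ι : Type) [Fintype ι] (u : ι → EuclideanSpace ℂ (Torus L)) (E : ι → ℝ),
      Orthonormal ℂ u → (∀ j, IsEigenvector ω (E j) (u j)) →
      (∀ j, ∃ (i : Fin 2) (z : ZMod L), ε ≤ mass (u j) (strip r i z)) →
      (Fintype.card ι : ℝ) ≤ ε * (L : ℝ) ^ 2

/-- The uniform law on `[-c, c]`. -/
def unif (c : ℝ) : Measure ℝ :=
  ENNReal.ofReal (1 / (2 * c)) • volume.restrict (Set.Icc (-c) c)

theorem eig_iff {L : ℕ} {σ m E : ℝ} {ω V : Torus L → ℝ} (hV : ∀ x, ω x = m + σ * V x)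
    {u : Torus L → ℂ} (h : IsEigenvector ω E u) :
    _root_.Pool.Agent.Run7.h47.IsEig (-σ) (4 + m - E) V u := by
  intro x
  have h1 := h x
  rw [hV x] at h1
  rw [Fin.sum_univ_two] at h1 ⊢
  push_cast at h1 ⊢
  linear_combination -h1

theorem core (b : ℝ) (hb : b < 31 / 15) (ε : ℝ) (hε : 0 < ε) (ν : Measure ℝ)
    [IsProbabilityMeasure ν] (R : ℝ) (hR : ν (Set.Icc (-R) R)ᶜ = 0) (hν : ∀ c, ν {c} ≠ 1) :
    ∃ s : ℝ, 0 < s ∧ ∀ lam : ℝ, 0 < lam → lam ≤ s → ∀ (L : ℕ) [NeZero L],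
      (lam ^ 13)⁻¹ ≤ (L : ℝ) → ∀ (μ : Measure ℝ) [IsProbabilityMeasure μ],
      μ.map (fun s => s / lam) = ν → Spread μ L (lam ^ (-b)) ε := by
  classical
  obtain ⟨m, hm⟩ : ∃ m, m = _root_.Run7.h108.GL.mean ν := ⟨_, rfl⟩
  obtain ⟨v, hv⟩ : ∃ v, v = _root_.Run7.h108.GL.sd ν := ⟨_, rfl⟩
  have hv0 : 0 < v := hv ▸ _root_.Run7.h108.GL.sd_pos hR hν
  let _ := _root_.Run7.h108.GL.lawNu ν R hR hν
  obtain ⟨b', hb'⟩ : ∃ b', b' = (b + 31 / 15) / 2 := ⟨_, rfl⟩
  have hb1 : b < b' := by rw [hb']; linarith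
  have hb2 : b' < 31 / 15 := by rw [hb']; linarith
  obtain ⟨s0, hs0, H⟩ := _root_.Run7.h108.GL.D2.spread b' hb2 ε hε
  obtain ⟨s1, hs1, H1⟩ := _root_.Pool.Agent.Run7.h47.small_pow (v ^ b') (b' - b) 1 (by linarith)
    one_pos
  refine ⟨min (min s1 (s0 / v)) (v ^ 12), by positivity, ?_⟩
  intro lam hlam hlams L _ hL μ hμ hμν
  have hls1 : lam ≤ s1 := hlams.trans ((min_le_left _ _).trans (min_le_left _ _))
  have hls2 : lam ≤ s0 / v := hlams.trans ((min_le_left _ _).trans (min_le_right _ _))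
  have hls3 : lam ≤ v ^ 12 := hlams.trans (min_le_right _ _)
  have hσ : |(-(lam * v))| = lam * v := by
    rw [abs_neg, abs_of_pos (by positivity)]
  have c1 : 0 < |(-(lam * v))| := by rw [hσ]; positivity
  have c2 : |(-(lam * v))| ≤ s0 := by
    rw [hσ]
    rwa [le_div_iff₀ hv0] at hls2
  have c3 : (|(-(lam * v))| ^ 12)⁻¹ ≤ (L : ℝ) := by
    refine le_trans ?_ hL
    rw [hσ]
    refine inv_anti₀ (by positivity) ?_
    calc lam ^ 13 = lam ^ 12 * lam := by ring
      _ ≤ lam ^ 12 * v ^ 12 := by gcongr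
      _ = (lam * v) ^ 12 := by ring
  have c4 : lam ^ (-b) ≤ |(-(lam * v))| ^ (-b') := by
    rw [hσ, Real.mul_rpow hlam.le hv0.le]
    have e1 : lam ^ (-b) = lam ^ (-b') * lam ^ (b' - b) := by
      rw [← Real.rpow_add hlam]
      congr 1
      ring
    rw [e1]
    refine mul_le_mul_of_nonneg_left ?_ (by positivity)
    rw [Real.rpow_neg hv0.le, ← one_div, le_div_iff₀ (by positivity), mul_comm]
    exact H1 lam hlam hls1
  obtain ⟨S, k1, k2, k3⟩ := H (-(lam * v)) c1 c2 L c3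
  have hmeas : Measurable fun (ω : Torus L → ℝ) (x : Torus L) =>
      (ω x / lam - _root_.Run7.h108.GL.mean ν) / _root_.Run7.h108.GL.sd ν :=
    measurable_pi_iff.2 fun x => (((measurable_pi_apply x).div_const _).sub_const _).div_const _
  have k2' : 1 - ε ≤ (Measure.pi fun _ : Torus L =>
      (_root_.Run7.h108.GL.lawNu ν R hR hν).μ).real S := k2
  rw [← _root_.Run7.h108.GL.D2.trf_pi ν R hR hν μ hμν (Torus L), measureReal_def,
    Measure.map_apply hmeas k1, ← measureReal_def] at k2'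
  refine ⟨_, hmeas k1, k2', fun ω hω ι _ u E hu hE hms => ?_⟩
  refine k3 _ hω ι u (fun j => 4 + lam * m - E j) hu (fun j => ?_) fun j => ?_
  · exact eig_iff (σ := lam * v) (m := lam * m) (V := fun x =>
      (ω x / lam - _root_.Run7.h108.GL.mean ν) / _root_.Run7.h108.GL.sd ν) (fun x => by
        rw [← hv, ← hm]
        field_simp
        ring) (hE j)
  · obtain ⟨i, z, hic⟩ := hms j
    refine ⟨i, z, hic.trans ?_⟩
    unfold mass
    rw [Finset.sum_filter]
    refine Finset.sum_le_sum fun x _ => ?_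
    by_cases hx : x ∈ strip (lam ^ (-b)) i z
    · have hx2 : _root_.Pool.Agent.Run7.h47.InSlab (|(-(lam * v))| ^ (-b')) i z x := by
        obtain ⟨n, hn, hn2⟩ := hx
        exact ⟨n, hn.trans c4, hn2⟩
      rw [if_pos hx, if_pos hx2]
    · rw [if_neg hx]
      split_ifs <;> positivity

/-- Let `b < 31 / 15`. For every `ε > 0` there is `s > 0` such that for `0 < c ≤ s` and all
`L ≥ c⁻¹³`, with `ω_j` i.i.d. uniform on `[-c, c]`, with probability at least `1 - ε` a family of
orthonormal eigenvectors of `Δ_ω` on the torus of side `L`, each of which has at least the fraction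
`ε` of its mass in some strip of width `2 c^(-b)`, has at most `ε L²` members. The same for
`ω = λ v`, `v` i.i.d. with any law `ν` of bounded support which is not a point mass, for
`0 < λ ≤ s`, with `λ` for `c`. -/
theorem result (b : ℝ) (hb : b < 31 / 15) (ε : ℝ) (hε : 0 < ε) :
    (∃ s : ℝ, 0 < s ∧ ∀ c : ℝ, 0 < c → c ≤ s → ∀ (L : ℕ) [NeZero L], (c ^ 13)⁻¹ ≤ (L : ℝ) →
      Spread (unif c) L (c ^ (-b)) ε) ∧
    ∀ (ν : Measure ℝ) [IsProbabilityMeasure ν] (R : ℝ), ν (Set.Icc (-R) R)ᶜ = 0 →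
      (∀ c, ν {c} ≠ 1) →
      ∃ s : ℝ, 0 < s ∧ ∀ lam : ℝ, 0 < lam → lam ≤ s → ∀ (L : ℕ) [NeZero L],
        (lam ^ 13)⁻¹ ≤ (L : ℝ) → Spread (ν.map fun x => lam * x) L (lam ^ (-b)) ε := by
  refine ⟨?_, ?_⟩
  · have := _root_.Run7.h108.GL.D2.unif_prob one_pos
    obtain ⟨s, hs, H⟩ := core b hb ε hε (_root_.Run7.h108.GL.D2.unif 1) 1
      (_root_.Run7.h108.GL.D2.unif_supp 1) (_root_.Run7.h108.GL.D2.unif_atom 1)
    refine ⟨s, hs, fun c hc hcs L _ hL => ?_⟩
    have := _root_.Run7.h108.GL.D2.unif_prob hc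
    exact H c hc hcs L hL (_root_.Run7.h108.GL.D2.unif c)
      (_root_.Run7.h108.GL.D2.unif_scale c hc)
  · intro ν _ R hR hν
    obtain ⟨s, hs, H⟩ := core b hb ε hε ν R hR hν
    refine ⟨s, hs, fun lam hc hcs L _ hL => ?_⟩
    have hme : Measurable fun x : ℝ => lam * x := measurable_const_mul lam
    have := Measure.isProbabilityMeasure_map (μ := ν) hme.aemeasurable
    refine H lam hc hcs L hL (ν.map fun x => lam * x) ?_
    rw [Measure.map_map (by fun_prop) hme]
    have : ((fun s : ℝ => s / lam) ∘ fun x => lam * x) = id := by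
      funext x
      simp only [Function.comp_apply, id]
      field_simp
    rw [this, Measure.map_id]

end

end Pool.Agent.Results.MP_562b47_mp.LocalizationLength2D
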